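import Pool.Agent.Helper51.SDL.Goals

/-!
# Packet SDL-CNTA (MP_fc6b1e_nt): the inequality for divisor groups
-/

set_option autoImplicit false

namespace Pool.Agent.Helper89.SDL.CNTA

open Pool.Agent.Helper51.REC Pool.Agent.Helper51.SDL

theorem t (h1 : S_HXG) (h2 : S_PRM) : Pool.Agent.Helper51.SDL.S_CNTA := by
  intro n P Q V E _ _ π b s t j φ ψ hO hs hφ hj hex ht hV hφi hE0 hE1 hψ
  -- the automorphism
  let u : Multiplicative (P →₀ ℤ) ≃* Multiplicative (P →₀ ℤ) :=
    AddEquiv.toMultiplicative (Finsupp.domCongr π)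
  have hu : ∀ (d : Multiplicative (P →₀ ℤ)) (w : P), (u d).toAdd (π w) = d.toAdd w := by
    intro d w
    change (Finsupp.domCongr π d.toAdd) (π w) = d.toAdd w
    rw [Finsupp.domCongr_apply, Finsupp.equivMapDomain_apply, Equiv.symm_apply_apply]
  obtain ⟨p1, p2, p3, p4, p5⟩ := h2 n P Q π b hO u hu
  have hφu : ∀ v, φ (s v) = u (φ v) := by
    intro v
    apply Multiplicative.toAdd.injective
    ext w
    obtain ⟨w', rfl⟩ := π.surjective w
    rw [hφ v w', hu (φ v) w']
  have hn : 0 < n := hO.pos
  have hE1' : (dfG t).range.relIndex (nmG n t).ker ≠ 0 := by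
    rw [hE1]
    exact Nat.mul_ne_zero hn.ne' hE0
  obtain ⟨q1, q2⟩ := h1 n V (Multiplicative (P →₀ ℤ)) E s u t j φ hn hs p1 hφu hj hex ht hV p2 hφi
    hE0 hE1'
  -- the map
  choose β hβ using p4
  let B : Multiplicative (Q →₀ ℤ) →* Multiplicative (P →₀ ℤ) :=
    { toFun := fun e ↦ β e.toAdd
      map_one' := by
        apply Multiplicative.toAdd.injective
        ext w
        rw [hβ]
        rfl
      map_mul' := by
        intro e e'
        apply Multiplicative.toAdd.injective
        ext w
        rw [hβ, toAdd_mul, toAdd_mul, Finsupp.add_apply, Finsupp.add_apply, hβ, hβ] }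
  have hB : ∀ (e : Multiplicative (Q →₀ ℤ)) (w : P), (B e).toAdd w = e.toAdd (b w) :=
    fun e w ↦ hβ e.toAdd w
  have hBi : Function.Injective B := by
    intro e e' h
    apply Multiplicative.toAdd.injective
    ext q
    obtain ⟨w, rfl⟩ := hO.surj q
    rw [← hB, ← hB, h]
  have hBr : B.range = fixG u := by
    ext d
    rw [p3 d]
    constructor
    · rintro ⟨e, rfl⟩
      exact ⟨e.toAdd, fun w ↦ hB e w⟩
    · rintro ⟨e, he⟩
      refine ⟨Multiplicative.ofAdd e, ?_⟩
      apply Multiplicative.toAdd.injective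
      ext w
      rw [hB, he]
      rfl
  have hBψ : ∀ v : fixG s, B (Multiplicative.ofAdd (ψ v)) = φ v := by
    intro v
    apply Multiplicative.toAdd.injective
    ext w
    rw [hB, hψ v v.2 w]
    rfl
  have hBN : ∀ w : P, B (Multiplicative.ofAdd (Finsupp.single (b w) (fx n π w : ℤ))) =
      nmG n u (Multiplicative.ofAdd (Finsupp.single w 1)) := by
    intro w
    apply Multiplicative.toAdd.injective
    ext w'
    rw [hB, p5]
    rfl
  set H : AddSubgroup (Q →₀ ℤ) := HH n π b (fun v : fixG s ↦ ψ v) with hH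
  set G : Subgroup (Multiplicative (P →₀ ℤ)) := (nmG n u).range ⊔ (fixG s).map φ with hG
  have hle1 : ∀ e ∈ H, B (Multiplicative.ofAdd e) ∈ G := by
    intro e he
    rw [hH, HH] at he
    induction he using AddSubgroup.closure_induction with
    | mem x hx =>
      rcases hx with ⟨w, rfl⟩ | ⟨v, rfl⟩
      · rw [hBN]
        exact Subgroup.mem_sup_left ⟨_, rfl⟩
      · change B (Multiplicative.ofAdd (ψ v)) ∈ G
        rw [hBψ]
        exact Subgroup.mem_sup_right ⟨v, v.2, rfl⟩
    | zero => rw [ofAdd_zero, map_one]; exact one_mem _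
    | add x y _ _ hx hy => rw [ofAdd_add, map_mul]; exact mul_mem hx hy
    | neg x _ hx => rw [ofAdd_neg, map_inv]; exact inv_mem hx
  have hle2 : G ≤ (AddSubgroup.toSubgroup H).map B := by
    rw [hG, sup_le_iff]
    constructor
    · rintro _ ⟨d, rfl⟩
      have key : ∀ d : P →₀ ℤ, nmG n u (Multiplicative.ofAdd d) ∈ (AddSubgroup.toSubgroup H).map B := by
        intro d
        induction d using Finsupp.induction_linear with
        | zero => rw [ofAdd_zero, map_one]; exact one_mem _
        | add f g hf hg => rw [ofAdd_add, map_mul]; exact mul_mem hf hg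
        | single w z =>
          have h3 : Multiplicative.ofAdd (Finsupp.single w z) =
              (Multiplicative.ofAdd (Finsupp.single w (1 : ℤ))) ^ z := by
            rw [← ofAdd_zsmul, Finsupp.smul_single, smul_eq_mul, mul_one]
          rw [h3, map_zpow]
          refine zpow_mem ?_ z
          rw [← hBN]
          refine Subgroup.mem_map_of_mem B ?_
          change Finsupp.single (b w) (fx n π w : ℤ) ∈ H
          exact AddSubgroup.subset_closure (Or.inl ⟨w, rfl⟩)
      exact key d.toAdd
    · rintro _ ⟨v, hv, rfl⟩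
      rw [← hBψ ⟨v, hv⟩]
      refine Subgroup.mem_map_of_mem B ?_
      change ψ v ∈ H
      exact AddSubgroup.subset_closure (Or.inr ⟨⟨v, hv⟩, rfl⟩)
  have hcomap : G.comap B = AddSubgroup.toSubgroup H := by
    ext e
    rw [Subgroup.mem_comap]
    constructor
    · intro h
      obtain ⟨e', he', h'⟩ := hle2 h
      rwa [← hBi h']
    · intro h
      exact hle1 e.toAdd h
  have hidx : H.index = G.relIndex (fixG u) := by
    rw [← hBr, ← Subgroup.index_comap, hcomap]
    exact (AddSubgroup.index_toSubgroup H).symm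
  rw [hidx]
  refine ⟨q1, ?_⟩
  rw [hE1, mul_comm n] at q2
  exact Nat.le_of_mul_le_mul_left q2 (Nat.pos_of_ne_zero hE0)

end Pool.Agent.Helper89.SDL.CNTA
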